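import Mathlib
import Pool.Agent.Lib.MP_cc29fe_co.Walk

/-!
# Local metric dimension and clique number: a partition into classes with resolving complements
-/

set_option autoImplicit false

namespace Pool.Agent.Results.MP_cc29fe_co.ResolvingPartition

universe u

variable {V : Type u}

/-- `W` is a local resolving set of `G`: for every edge `uv` the distance vectors `r(u|W)` and
`r(v|W)` are different. -/
def IsLocalResolving (G : SimpleGraph V) (W : Finset V) : Prop :=
  ∀ u v : V, G.Adj u v → ∃ w ∈ W, G.dist u w ≠ G.dist v w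

/-- The local metric dimension `dim_l(G)`: the least cardinality of a local resolving set. -/
noncomputable def localMetricDim (G : SimpleGraph V) : ℕ :=
  sInf {k : ℕ | ∃ W : Finset V, IsLocalResolving G W ∧ W.card = k}

/-- `W` is a local adjacency resolving set of `G`: for every edge `uv` some `w ∈ W` is one of
`u`, `v` or is adjacent to exactly one of `u`, `v`. -/
def IsLocalAdjacencyResolving (G : SimpleGraph V) (W : Finset V) : Prop :=
  ∀ u v : V, G.Adj u v → ∃ w ∈ W, w = u ∨ w = v ∨ ¬ (G.Adj w u ↔ G.Adj w v)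

theorem IsLocalAdjacencyResolving.isLocalResolving {G : SimpleGraph V} {W : Finset V}
    (h : IsLocalAdjacencyResolving G W) : IsLocalResolving G W := by
  intro u v huv
  obtain ⟨w, hw, h1 | h1 | h1⟩ := h u v huv
  · subst h1
    refine ⟨w, hw, ?_⟩
    rw [SimpleGraph.dist_self, SimpleGraph.dist_eq_one_iff_adj.2 huv.symm]
    exact zero_ne_one
  · subst h1
    refine ⟨w, hw, ?_⟩
    rw [SimpleGraph.dist_self, SimpleGraph.dist_eq_one_iff_adj.2 huv]
    exact one_ne_zero
  · refine ⟨w, hw, fun hd => h1 ?_⟩
    rw [G.adj_comm w u, G.adj_comm w v, ← SimpleGraph.dist_eq_one_iff_adj,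
      ← SimpleGraph.dist_eq_one_iff_adj, hd]

open Classical in
/-- Let `G` be a finite connected graph with `n(G) ≥ ω(G) + 1 ≥ 4`. Then
`dim_l(G) ≤ (ω(G) - 2) / (ω(G) - 1) * n(G)`; moreover the vertex set splits into `ω(G) - 1`
classes such that the complement of every class is a local adjacency resolving set. -/
theorem result (V : Type u) [Fintype V] (G : SimpleGraph V) (hG : G.Connected)
    (hω : 4 ≤ G.cliqueNum + 1) (hn : G.cliqueNum + 1 ≤ Fintype.card V) :
    (localMetricDim G : ℝ) ≤
        ((G.cliqueNum : ℝ) - 2) / ((G.cliqueNum : ℝ) - 1) * (Fintype.card V : ℝ) ∧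
      ∃ c : V → Fin (G.cliqueNum - 1), ∀ i : Fin (G.cliqueNum - 1),
        IsLocalAdjacencyResolving G (Finset.univ.filter (fun v => c v ≠ i)) := by
  obtain ⟨r, hr⟩ : ∃ r, G.cliqueNum = r + 1 := ⟨G.cliqueNum - 1, by omega⟩
  rw [hr] at hω hn ⊢
  have hr2 : 2 ≤ r := by omega
  have hfree : G.CliqueFree (r + 2) := by
    intro s hs
    have := hs.isClique.card_le_cliqueNum
    rw [hs.card_eq, hr] at this
    omega
  obtain ⟨c, hc⟩ := Pool.Agent.Lib.MP_cc29fe_co.exists_good_coloring (G := G) (κ := Fin r)
    (by simpa using hr2) hG (by simpa using hfree) (by rw [Fintype.card_fin]; exact hn)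
  have hres : ∀ i : Fin r,
      IsLocalAdjacencyResolving G (Finset.univ.filter (fun v => c v ≠ i)) := by
    intro i u v huv
    by_cases hu : c u = i
    · by_cases hv : c v = i
      · have h2 : ∃ w, c w ≠ c u ∧ ¬ (G.Adj w u ↔ G.Adj w v) := by
          by_contra hcon
          push Not at hcon
          exact hc u v ⟨huv, by rw [hu, hv], hcon⟩
        obtain ⟨w, hw1, hw2⟩ := h2
        exact ⟨w, by simp [← hu, hw1], Or.inr (Or.inr hw2)⟩
      · exact ⟨v, by simp [hv], Or.inr (Or.inl rfl)⟩
    · exact ⟨u, by simp [hu], Or.inl rfl⟩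
  refine ⟨?_, c, hres⟩
  -- the largest class
  obtain ⟨i, hi⟩ : ∃ i : Fin r,
      Fintype.card V ≤ r * (Finset.univ.filter (fun v => c v = i)).card := by
    by_contra hcon
    push Not at hcon
    have h1 : ∑ i : Fin r, (Finset.univ.filter (fun v => c v = i)).card = Fintype.card V := by
      rw [← Finset.card_univ (α := V)]
      exact (Finset.card_eq_sum_card_fiberwise (fun v _ => Finset.mem_univ (c v))).symm
    have h2 : ∑ i : Fin r, r * (Finset.univ.filter (fun v => c v = i)).card
        < ∑ _i : Fin r, Fintype.card V := by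
      have : Nonempty (Fin r) := ⟨⟨0, by omega⟩⟩
      exact Finset.sum_lt_sum_of_nonempty Finset.univ_nonempty (fun i _ => hcon i)
    rw [← Finset.mul_sum, h1, Finset.sum_const, Finset.card_univ, Fintype.card_fin,
      smul_eq_mul] at h2
    exact lt_irrefl _ h2
  have hle : localMetricDim G ≤ (Finset.univ.filter (fun v => c v ≠ i)).card :=
    Nat.sInf_le ⟨_, (hres i).isLocalResolving, rfl⟩
  have h1 : (Finset.univ.filter (fun v => c v = i)).card
      + (Finset.univ.filter (fun v => c v ≠ i)).card = Fintype.card V := by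
    rw [← Finset.card_univ (α := V)]
    exact Finset.card_filter_add_card_filter_not (s := Finset.univ) (fun v => c v = i)
  have hr0 : (0 : ℝ) < (r : ℝ) := by
    have : 0 < r := by omega
    exact_mod_cast this
  have h2 : (Fintype.card V : ℝ) ≤ r * ((Finset.univ.filter (fun v => c v = i)).card : ℝ) := by
    exact_mod_cast hi
  have h3 : ((Finset.univ.filter (fun v => c v = i)).card : ℝ)
      + ((Finset.univ.filter (fun v => c v ≠ i)).card : ℝ) = (Fintype.card V : ℝ) := by
    exact_mod_cast h1
  have h4 : (localMetricDim G : ℝ) ≤ ((Finset.univ.filter (fun v => c v ≠ i)).card : ℝ) := by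
    exact_mod_cast hle
  refine le_trans h4 ?_
  push_cast
  rw [show (r : ℝ) + 1 - 2 = r - 1 by ring, show (r : ℝ) + 1 - 1 = r by ring, div_mul_eq_mul_div,
    le_div_iff₀ hr0]
  nlinarith

end Pool.Agent.Results.MP_cc29fe_co.ResolvingPartition
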